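import Pool.Agent.N375.AV.D
import Pool.Agent.N375.AV.Ex
import Pool.Agent.Results.MP_ff4775_nt.CountBelowEntropy

/-!
# Divergent trajectories of the 3x+1 map and the values of additive functions and their compositions

Let `F = f_1 ∘ ... ∘ f_k` be a composition of functions which are dominated by the largest prime factor (`PD`): additive
functions with `f(q^j) ≤ C q^j` for all prime powers and different values at different large primes, for example the sum of
the prime factors of `m` (with or without multiplicity), the largest prime factor of `m`, or Kempner's function (the least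
`t` such that `m` divides `t!`). Let `α > 0`, `d ≥ 1`, `κ ≥ 0` and `d H + κ ≤ 1`, where `H = 0.94995...` is the binary entropy
of `log 2 / log 3`. For every divergent trajectory of the 3x+1 map on the integers, for all `m ≤ N` but
`K N exp (-c (log N)^(1 / (k + 1)))`, no element of the trajectory has an absolute value within `F(m)^κ` of `α F(m)^d`. The
constants `c` and `K` do not depend on the trajectory. (For `d = 1`, `κ = 1 - H`, `k = 0` this is close to the count of the
elements of the trajectory; but the values of `F` are small compared to `m`, and are taken with very large multiplicities, so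
that for `k ≥ 1` it does not follow from this count.)

More generally `G (F m)` takes the place of `α F(m)^d`, where `G` is any function with steps bounded below by a positive
constant and growth at most `v^d`.
-/

set_option autoImplicit false

namespace Pool.Agent.Results.MP_ff4775_nt.AdditiveValues

open Filter
open Pool.Agent.N733.TG (Expanding expanding_pow)
open Pool.Agent.N375.AV (PD comp windows_unif pd_additive pd_sopfr pd_largest pd_kempner)

/-- The 3x+1 map on the integers. -/
def T (x : ℤ) : ℤ := if x % 2 = 0 then x / 2 else (3 * x + 1) / 2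

/-- The trajectory of `n` is divergent. -/
def Divergent (n : ℤ) : Prop := Tendsto (fun k => |T^[k] n|) atTop atTop

/-- the entropy `0.94995...` of `log 2 / log 3` -/
noncomputable def entropy : ℝ := Real.binEntropy (Real.log 2 / Real.log 3) / Real.log 2

/-- the trajectory of `n` -/
def traj (n : ℤ) : Set ℤ := {z | ∃ k : ℕ, T^[k] n = z}

lemma entropy_lt_one : entropy < 1 := by
  have h2 : (0 : ℝ) < Real.log 2 := Real.log_pos (by norm_num)
  have h3 : (0 : ℝ) < Real.log 3 := Real.log_pos (by norm_num)
  unfold entropy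
  rw [div_lt_one h2]
  refine Real.binEntropy_lt_log_two.2 ?_
  intro h
  have h4 : Real.log 3 = 2 * Real.log 2 := by
    field_simp at h
    linarith
  have h5 : 2 * Real.log 2 = Real.log 4 := by
    rw [show (4 : ℝ) = 2 ^ 2 by norm_num, Real.log_pow]
    push_cast; ring
  rw [h5] at h4
  have h6 := Real.log_injOn_pos (by norm_num : (3 : ℝ) ∈ Set.Ioi 0) (by norm_num : (4 : ℝ) ∈ Set.Ioi 0) h4
  norm_num at h6

/-- the number of the elements of a divergent trajectory up to `X` -/
lemma count : ∃ η C : ℝ, 0 ≤ η ∧ η < entropy ∧ 0 ≤ C ∧ ∀ n : ℤ, Divergent n → ∀ X : ℝ, 1 ≤ X →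
    {t | t ∈ traj n ∧ |(t : ℝ)| ≤ X}.Finite ∧ ({t | t ∈ traj n ∧ |(t : ℝ)| ≤ X}.ncard : ℝ) ≤ C * X ^ η := by
  obtain ⟨η, C, hη, h⟩ := CountBelowEntropy.result
  have hpos : 0 < entropy := by
    have h2 : (0 : ℝ) < Real.log 2 := Real.log_pos (by norm_num)
    have h3 : Real.log 2 < Real.log 3 := Real.log_lt_log (by norm_num) (by norm_num)
    exact div_pos (Real.binEntropy_pos (by positivity) ((div_lt_one (h2.trans h3)).2 h3)) h2
  refine ⟨max η 0, |C|, le_max_right _ _, max_lt hη hpos, abs_nonneg C, fun n hn X hX => ?_⟩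
  have h1 := h n hn 0 X hX
  have h2 : {z : ℤ | (∃ k : ℕ, CountBelowEntropy.T^[k] n = z) ∧ |(z : ℝ) - 0| ≤ X} =
      {t | t ∈ traj n ∧ |(t : ℝ)| ≤ X} := by
    ext z
    simp only [sub_zero, Set.mem_ofPred_eq]
    rfl
  rw [h2] at h1
  have hfin : {t | t ∈ traj n ∧ |(t : ℝ)| ≤ X}.Finite := by
    apply (Set.finite_Icc (-⌊X⌋) ⌊X⌋).subset
    intro x hx
    have h := abs_le.1 hx.2
    rw [Set.mem_Icc]
    refine ⟨?_, Int.le_floor.2 h.2⟩
    have : (-x : ℤ) ≤ ⌊X⌋ := Int.le_floor.2 (by push_cast; linarith [h.1])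
    omega
  refine ⟨hfin, h1.trans ?_⟩
  calc C * X ^ η ≤ |C| * X ^ η := mul_le_mul_of_nonneg_right (le_abs_self C) (by positivity)
    _ ≤ |C| * X ^ max η 0 :=
        mul_le_mul_of_nonneg_left (Real.rpow_le_rpow_of_exponent_le hX (le_max_left _ _)) (abs_nonneg C)

/-- **Divergent trajectories and the values of additive functions and their compositions.** Let `F = f_1 ∘ ... ∘ f_k` be a
composition of functions with the property `PD` (`F = comp fs`, `fs` the list of the `f_i`). Let `G` have steps
`≥ const > 0` and growth at most `v^d`. Let `κ ≥ 0` and `d H + κ ≤ 1`, `H < 1` the entropy of `log 2 / log 3`. There are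
`c > 0` and `K` such that for all integers `n` with a divergent trajectory and all `N ≥ 1`, for all `m ≤ N` but
`K N exp (-c (log N)^(1/(k+1)))`, no element `t` of the trajectory of `n` satisfies `||t| - G (F m)| ≤ F(m)^κ`. Additive
functions with `f(q^j) ≤ C q^j` and different values at different large primes (for example the sum of the prime factors), the
largest prime factor and Kempner's function have the property `PD`, and `α v^d` with `α > 0`, `d ≥ 1` is an example of `G`. -/
theorem result :
    (∀ fs : List (ℕ → ℕ), (∀ f ∈ fs, PD f) → ∀ (G : ℕ → ℝ) (d : ℝ), Expanding G d → ∀ κ : ℝ, 0 ≤ κ →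
      entropy * d + κ ≤ 1 → ∃ c K : ℝ, 0 < c ∧ ∀ n : ℤ, Divergent n → ∀ N : ℕ, 1 ≤ N →
        ({m : ℕ | 1 ≤ m ∧ m ≤ N ∧
          ∃ t ∈ traj n, |(|(t : ℝ)|) - G (comp fs m)| ≤ (comp fs m : ℝ) ^ κ}.ncard : ℝ) ≤
          K * N * Real.exp (-(c * Real.log N ^ ((1 : ℝ) / (fs.length + 1))))) ∧
    entropy < 1 ∧
    ((∀ f : ℕ → ℕ, (∀ a b : ℕ, Nat.Coprime a b → f (a * b) = f a + f b) →
        (∃ C : ℕ, ∀ q j : ℕ, q.Prime → 1 ≤ j → f (q ^ j) ≤ C * q ^ j) →
        (∃ P : ℕ, ∀ p q : ℕ, p.Prime → q.Prime → P ≤ p → P ≤ q → f p = f q → p = q) → PD f) ∧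
      PD (fun n => n.primeFactorsList.sum) ∧ PD (fun n => n.primeFactors.sup id) ∧
      PD (fun n => sInf {k : ℕ | n ∣ k.factorial})) ∧
    ∀ α d : ℝ, 0 < α → 1 ≤ d → Expanding (fun v => α * (v : ℝ) ^ d) d := by
  refine ⟨fun fs hfs G d hG κ hκ h1 => ?_, entropy_lt_one,
    ⟨fun f h1 h2 h3 => pd_additive h1 h2 h3, pd_sopfr, pd_largest, pd_kempner⟩,
    fun α d hα hd => expanding_pow hα hd⟩
  obtain ⟨η, C, hη0, hη, hC0, hC⟩ := count
  have hd := hG.one_le
  obtain ⟨c, K, hc, h⟩ := windows_unif (T := ℤ) (fun t => |(t : ℝ)|) fs hfs hG (s := η) (κ := κ) hη0 hκ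
    (by nlinarith) C
  exact ⟨c, K, hc, fun n hn N hN => h (traj n) (fun X hX => hC n hn X hX) N hN⟩

end Pool.Agent.Results.MP_ff4775_nt.AdditiveValues
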