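import Pool.Agent.N375.MV.Unif
import Pool.Agent.N733.TG.K
import Pool.Agent.Results.MP_ff4775_nt.CountBelowEntropy

/-!
# Divergent trajectories of the 3x+1 map and the values of multiplicative functions

Let `f` be a positive multiplicative function of at most polynomial growth such that `f p ≤ M p` for the large primes `p`,
with different values at different large primes; for example Euler's function or the sum of the divisors. Let `α > 0`,
`d ≥ 1`, `κ ≥ 0` and `d H + κ ≤ 1`, where `H = 0.94995...` is the binary entropy of `log 2 / log 3`. For every divergent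
trajectory of the 3x+1 map on the integers, for all `m ≤ N` but `N / (log N)^U`, no element of the trajectory has an absolute
value within `f(m)^κ` of `α f(m)^d`, if `N ≥ N₀(U)`; here `N₀` does not depend on the trajectory.

More generally `G (f m)` takes the place of `α f(m)^d`, where `G` is any function with steps bounded below by a positive
constant and growth at most `v^d`. The values of `f` are in general taken with very large multiplicities, so that this does
not follow from the count of the elements of the trajectory.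
-/

set_option autoImplicit false

namespace Pool.Agent.Results.MP_ff4775_nt.MultiplicativeValues

open Filter
open Pool.Agent.N733.TG (LM Expanding lm_totient lm_sigma expanding_pow)

/-- The 3x+1 map on the integers. -/
def T (x : ℤ) : ℤ := if x % 2 = 0 then x / 2 else (3 * x + 1) / 2

/-- The trajectory of `n` is divergent. -/
def Divergent (n : ℤ) : Prop := Tendsto (fun k => |T^[k] n|) atTop atTop

/-- the entropy `0.94995...` of `log 2 / log 3` -/
noncomputable def entropy : ℝ := Real.binEntropy (Real.log 2 / Real.log 3) / Real.log 2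

/-- the trajectory of `n` -/
def traj (n : ℤ) : Set ℤ := {z | ∃ k : ℕ, T^[k] n = z}

lemma entropy_lt_one : entropy < 1 := by
  have h2 : (0 : ℝ) < Real.log 2 := Real.log_pos (by norm_num)
  have h3 : (0 : ℝ) < Real.log 3 := Real.log_pos (by norm_num)
  unfold entropy
  rw [div_lt_one h2]
  refine Real.binEntropy_lt_log_two.2 ?_
  intro h
  have h4 : Real.log 3 = 2 * Real.log 2 := by
    field_simp at h
    linarith
  have h5 : 2 * Real.log 2 = Real.log 4 := by
    rw [show (4 : ℝ) = 2 ^ 2 by norm_num, Real.log_pow]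
    push_cast; ring
  rw [h5] at h4
  have h6 := Real.log_injOn_pos (by norm_num : (3 : ℝ) ∈ Set.Ioi 0) (by norm_num : (4 : ℝ) ∈ Set.Ioi 0) h4
  norm_num at h6

/-- the number of the elements of a divergent trajectory up to `X` -/
lemma count : ∃ η C : ℝ, 0 ≤ η ∧ η < entropy ∧ 0 ≤ C ∧ ∀ n : ℤ, Divergent n → ∀ X : ℝ, 1 ≤ X →
    {t | t ∈ traj n ∧ |(t : ℝ)| ≤ X}.Finite ∧ ({t | t ∈ traj n ∧ |(t : ℝ)| ≤ X}.ncard : ℝ) ≤ C * X ^ η := by
  obtain ⟨η, C, hη, h⟩ := CountBelowEntropy.result
  have hpos : 0 < entropy := by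
    have h2 : (0 : ℝ) < Real.log 2 := Real.log_pos (by norm_num)
    have h3 : Real.log 2 < Real.log 3 := Real.log_lt_log (by norm_num) (by norm_num)
    exact div_pos (Real.binEntropy_pos (by positivity) ((div_lt_one (h2.trans h3)).2 h3)) h2
  refine ⟨max η 0, |C|, le_max_right _ _, max_lt hη hpos, abs_nonneg C, fun n hn X hX => ?_⟩
  have h1 := h n hn 0 X hX
  have h2 : {z : ℤ | (∃ k : ℕ, CountBelowEntropy.T^[k] n = z) ∧ |(z : ℝ) - 0| ≤ X} =
      {t | t ∈ traj n ∧ |(t : ℝ)| ≤ X} := by
    ext z
    simp only [sub_zero, Set.mem_ofPred_eq]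
    rfl
  rw [h2] at h1
  have hfin : {t | t ∈ traj n ∧ |(t : ℝ)| ≤ X}.Finite := by
    apply (Set.finite_Icc (-⌊X⌋) ⌊X⌋).subset
    intro x hx
    have h := abs_le.1 hx.2
    rw [Set.mem_Icc]
    refine ⟨?_, Int.le_floor.2 h.2⟩
    have : (-x : ℤ) ≤ ⌊X⌋ := Int.le_floor.2 (by push_cast; linarith [h.1])
    omega
  refine ⟨hfin, h1.trans ?_⟩
  calc C * X ^ η ≤ |C| * X ^ η := mul_le_mul_of_nonneg_right (le_abs_self C) (by positivity)
    _ ≤ |C| * X ^ max η 0 :=
        mul_le_mul_of_nonneg_left (Real.rpow_le_rpow_of_exponent_le hX (le_max_left _ _)) (abs_nonneg C)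

/-- **Divergent trajectories and the values of multiplicative functions.** Let `f` be multiplicative and positive, of at most
polynomial growth, with `f p ≤ M p` at the large primes, and injective there. Let `G` have steps `≥ const > 0` and growth at
most `v^d`. Let `κ ≥ 0`, `d H + κ ≤ 1`, `H < 1` the entropy of `log 2 / log 3`, and `U` a natural number. There is `N₀` such
that for all `N ≥ N₀` and all integers `n` with a divergent trajectory, for all `m ≤ N` but `N / (log N)^U`, no element `t` of
the trajectory of `n` satisfies `||t| - G (f m)| ≤ f(m)^κ`. Euler's function and the sum of the divisors are examples of such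
functions `f`, and `α v^d` with `α > 0`, `d ≥ 1` is an example of `G`. -/
theorem result :
    (∀ f : ℕ → ℕ, LM f → ∀ (G : ℕ → ℝ) (d : ℝ), Expanding G d → ∀ κ : ℝ, 0 ≤ κ → entropy * d + κ ≤ 1 →
      ∀ U : ℕ, ∃ N₀ : ℕ, ∀ N : ℕ, N₀ ≤ N → ∀ n : ℤ, Divergent n →
        ({m : ℕ | 1 ≤ m ∧ m ≤ N ∧ ∃ t ∈ traj n, |(|(t : ℝ)|) - G (f m)| ≤ (f m : ℝ) ^ κ}.ncard : ℝ) ≤
          N / Real.log N ^ U) ∧
    entropy < 1 ∧
    (LM Nat.totient ∧ LM (fun m => ∑ d ∈ m.divisors, d)) ∧
    ∀ α d : ℝ, 0 < α → 1 ≤ d → Expanding (fun v => α * (v : ℝ) ^ d) d := by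
  refine ⟨fun f hf G d hG κ hκ h1 U => ?_, entropy_lt_one, ⟨lm_totient, lm_sigma⟩,
    fun α d hα hd => expanding_pow hα hd⟩
  obtain ⟨η, C, hη0, hη, hC0, hC⟩ := count
  have hd := hG.one_le
  obtain ⟨N₀, h⟩ := Pool.Agent.N375.MV.keep_windows_unif (T := ℤ) (fun t => |(t : ℝ)|) hf hG (s := η) (κ := κ) hη0 hκ
    (by nlinarith) C U
  exact ⟨N₀, fun N hN n hn => h N hN (traj n) (fun X hX => hC n hn X hX)⟩

end Pool.Agent.Results.MP_ff4775_nt.MultiplicativeValues
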