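import Pool.Agent.R482.ST.Star
import Pool.Agent.Results.MP_ff4775_nt.CountBelowEntropy

/-!
# Divergent trajectories of the 3x+1 map near powers, orbits and other sequences of almost all real numbers

Let `f_k`, `k = 0, 1, 2, …`, be positive functions on `(a, ∞)`, `a ≥ 0`, such that `f_k(x) / x` is nondecreasing, and such
that the sequence `f_k(x)` has exponent of convergence at most `τ` for each `x > a`: for instance `f_k(x) = v_k x`
(dilatations; `τ` the exponent of convergence of `v_k > 0`), `f_k(x) = x ^ (v_k)` for exponents `v_k ≥ 1` (`τ = 0`), or the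
orbits `f_k(x) = g (g (⋯ g (x)))` of any map `g` with `g(x) > x` and `g(x) / x` nondecreasing (`τ = 0`). Let `θ < 1`.
There is `η` strictly smaller than the entropy `H = 0.9499...` of `log 2 / log 3` such that, outside ONE set of `x` of
Hausdorff dimension at most `(η + τ) / (1 - θ)`, the following holds for EVERY divergent trajectory of the 3x+1 map on the
integers: for each constant `c`, for all large `k` no element of the trajectory has an absolute value within `c f_k(x) ^ θ`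
of `f_k(x)`.

For instance, for almost all `x > 1`, a divergent trajectory, wherever it starts, avoids for all large `k` the window
of length `2 x ^ ((1 - H) k)` around `x ^ k` and that around `- x ^ k`; and for almost all `x > 0` it avoids the windows of
length `2 n ^ κ` around all large members `x n ^ d` of the sequence of the dilated `d`-th powers if `d H + κ + 1 ≤ d`.
-/

set_option autoImplicit false

namespace Pool.Agent.Results.MP_ff4775_nt.StarshapedSequences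

open Filter MeasureTheory

/-- The 3x+1 map on the integers. -/
def T (x : ℤ) : ℤ := if x % 2 = 0 then x / 2 else (3 * x + 1) / 2

/-- The trajectory of `n` is divergent. -/
def Divergent (n : ℤ) : Prop := Tendsto (fun k => |T^[k] n|) atTop atTop

/-- the trajectory of `n` -/
def traj (n : ℤ) : Set ℤ := {z | ∃ k : ℕ, T^[k] n = z}

/-- the entropy `0.9499...` of `log 2 / log 3` -/
noncomputable def H : ℝ := Real.binEntropy (Real.log 2 / Real.log 3) / Real.log 2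

/-- the functions `f n` are positive on `(a, ∞)`, `a ≥ 0`, and `f n x / x` is nondecreasing there -/
def Starshaped (a : ℝ) (f : ℕ → ℝ → ℝ) : Prop :=
  0 ≤ a ∧ ∀ n : ℕ, ∀ x y : ℝ, a < x → x ≤ y → 0 < f n x ∧ f n x / x ≤ f n y / y

/-- for each `x > a` the exponent of convergence of the sequence `f n x` is at most `τ` -/
def ExpLe (a : ℝ) (f : ℕ → ℝ → ℝ) (τ : ℝ) : Prop :=
  ∀ x : ℝ, a < x → ∀ t : ℝ, τ < t → Summable (fun n : ℕ => (f n x) ^ (-t))

/-- the number of the elements of a divergent trajectory up to `X` -/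
lemma count : ∃ η C : ℝ, 0 ≤ η ∧ η < H ∧ 0 ≤ C ∧ ∀ n : ℤ, Divergent n → ∀ X : ℝ, 1 ≤ X →
    {t | t ∈ traj n ∧ |(t : ℝ)| ≤ X}.Finite ∧ ({t | t ∈ traj n ∧ |(t : ℝ)| ≤ X}.ncard : ℝ) ≤ C * X ^ η := by
  obtain ⟨η, C, hη, h⟩ := CountBelowEntropy.result
  have hpos : 0 < H := by
    have h2 : (0 : ℝ) < Real.log 2 := Real.log_pos (by norm_num)
    have h3 : Real.log 2 < Real.log 3 := Real.log_lt_log (by norm_num) (by norm_num)
    exact div_pos (Real.binEntropy_pos (by positivity) ((div_lt_one (h2.trans h3)).2 h3)) h2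
  refine ⟨max η 0, |C|, le_max_right _ _, max_lt hη hpos, abs_nonneg C, fun n hn X hX => ?_⟩
  have h1 := h n hn 0 X hX
  have h2 : {z : ℤ | (∃ k : ℕ, CountBelowEntropy.T^[k] n = z) ∧ |(z : ℝ) - 0| ≤ X} =
      {t | t ∈ traj n ∧ |(t : ℝ)| ≤ X} := by
    ext z
    simp only [sub_zero, Set.mem_ofPred_eq]
    rfl
  rw [h2] at h1
  have hfin : {t | t ∈ traj n ∧ |(t : ℝ)| ≤ X}.Finite := by
    apply (Set.finite_Icc (-⌊X⌋) ⌊X⌋).subset
    intro x hx
    have h := abs_le.1 hx.2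
    rw [Set.mem_Icc]
    refine ⟨?_, Int.le_floor.2 h.2⟩
    have : (-x : ℤ) ≤ ⌊X⌋ := Int.le_floor.2 (by push_cast; linarith [h.1])
    omega
  refine ⟨hfin, h1.trans ?_⟩
  calc C * X ^ η ≤ |C| * X ^ η := mul_le_mul_of_nonneg_right (le_abs_self C) (by positivity)
    _ ≤ |C| * X ^ max η 0 :=
        mul_le_mul_of_nonneg_left (Real.rpow_le_rpow_of_exponent_le hX (le_max_left _ _)) (abs_nonneg C)

/-- all divergent trajectories at once -/
lemma windows {η C : ℝ} (hη : 0 ≤ η) (hC : 0 ≤ C) (h : ∀ n : ℤ, Divergent n → ∀ X : ℝ, 1 ≤ X →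
      {t | t ∈ traj n ∧ |(t : ℝ)| ≤ X}.Finite ∧ ({t | t ∈ traj n ∧ |(t : ℝ)| ≤ X}.ncard : ℝ) ≤ C * X ^ η)
    {f : ℕ → ℝ → ℝ} {a τ θ : ℝ} (hf : Starshaped a f) (hτ : 0 ≤ τ) (hE : ExpLe a f τ) (hθ : θ < 1) :
    ∃ E : Set ℝ, dimH E ≤ ENNReal.ofReal ((η + τ) / (1 - θ)) ∧ ∀ x : ℝ, a < x → x ∉ E →
      ∀ n : ℤ, Divergent n → ∀ c : ℝ, ∃ k₀ : ℕ, ∀ k : ℕ, k₀ ≤ k → ∀ t ∈ traj n,
        c * (f k x) ^ θ < |(|(t : ℝ)|) - f k x| := by
  have key : ∀ n : ℤ, ∃ E : Set ℝ, dimH E ≤ ENNReal.ofReal ((η + τ) / (1 - θ)) ∧ (Divergent n →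
      ∀ x : ℝ, a < x → x ∉ E → ∀ c : ℝ, ∃ k₀ : ℕ, ∀ k : ℕ, k₀ ≤ k → ∀ t ∈ traj n,
        c * (f k x) ^ θ < |(|(t : ℝ)|) - f k x|) := by
    intro n
    by_cases hn : Divergent n
    · obtain ⟨E, hE1, hE2⟩ := Pool.Agent.R482.ST.windows (traj n) (fun t : ℤ => |(t : ℝ)|) (s := η) (θ := θ)
        hf hτ hE hη hθ (fun ε hε => ⟨C, fun X hX => ⟨(h n hn X hX).1, (h n hn X hX).2.trans
          (mul_le_mul_of_nonneg_left (Real.rpow_le_rpow_of_exponent_le hX (by linarith)) hC)⟩⟩)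
      exact ⟨E, hE1, fun _ => hE2⟩
    · exact ⟨∅, by simp, fun h => absurd h hn⟩
  choose E hE1 hE2 using key
  refine ⟨⋃ n, E n, ?_, fun x hx hxE n hn c => hE2 n hn x hx (fun h => hxE (Set.mem_iUnion.2 ⟨n, h⟩)) c⟩
  rw [dimH_iUnion]
  exact iSup_le hE1

lemma vol_zero {E : Set ℝ} {s : ℝ} (h : dimH E ≤ ENNReal.ofReal s) (hs : s < 1) : volume E = 0 := by
  have h1 : dimH E < ((1 : NNReal) : ENNReal) := by
    refine lt_of_le_of_lt h ?_
    rw [ENNReal.coe_one, ← ENNReal.ofReal_one]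
    exact (ENNReal.ofReal_lt_ofReal_iff one_pos).2 hs
  have h2 := hausdorffMeasure_of_dimH_lt h1
  rwa [NNReal.coe_one, hausdorffMeasure_real] at h2

/-- **Divergent trajectories and starshaped sequences.** (1) There is `η`, `0 ≤ η < H < 0.951`, such that for all starshaped
functions `f` on `(a, ∞)` of exponent of convergence at most `τ ≥ 0` and all `θ < 1` there is a set `E` of Hausdorff dimension
at most `(η + τ) / (1 - θ)` such that for each `x > a` outside `E`, EVERY `n` with a divergent trajectory, each `c` and all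
large `k`, no element `t` of the trajectory of `n` satisfies `||t| - f_k(x)| ≤ c f_k(x) ^ θ`. (2) For almost all `x > 1`, for
every divergent trajectory, no element `t` satisfies `||t| - x ^ k| ≤ x ^ ((1 - H) k)`, for all large `k`. (3) For each `v`
with `v_k > 0` and exponent of convergence at most `τ ≥ 0` and `H + τ + θ ≤ 1`, for almost all `x > 0` and every divergent
trajectory, no element `t` satisfies `||t| - v_k x| ≤ (v_k) ^ θ`, for all large `k`. (4) The functions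
`v_n x`, `v_n > 0`, are starshaped on `(0, ∞)`, of exponent `τ` if `v` has exponent of convergence at most `τ`; the functions
`x ^ (v_n)`, `v_n ≥ 1`, are starshaped on `(1, ∞)`, of exponent `0` if the sums of `exp (-t v_n)` converge for `t > 0`; and the
iterates of a map `g` with `g(x) > x` for `x > a` and `g(x) / x` nondecreasing are starshaped on `(a, ∞)`, of exponent `0`. -/
theorem result : H < 0.951 ∧
    (∃ η : ℝ, 0 ≤ η ∧ η < H ∧ ∀ (f : ℕ → ℝ → ℝ) (a τ θ : ℝ), Starshaped a f → 0 ≤ τ → ExpLe a f τ → θ < 1 →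
      ∃ E : Set ℝ, dimH E ≤ ENNReal.ofReal ((η + τ) / (1 - θ)) ∧ ∀ x : ℝ, a < x → x ∉ E →
        ∀ n : ℤ, Divergent n → ∀ c : ℝ, ∃ k₀ : ℕ, ∀ k : ℕ, k₀ ≤ k → ∀ t ∈ traj n,
          c * (f k x) ^ θ < |(|(t : ℝ)|) - f k x|) ∧
    (∀ᵐ x : ℝ, 1 < x → ∀ n : ℤ, Divergent n → ∃ k₀ : ℕ, ∀ k : ℕ, k₀ ≤ k → ∀ t ∈ traj n,
      x ^ ((1 - H) * k) < |(|(t : ℝ)|) - x ^ k|) ∧
    (∀ (v : ℕ → ℝ) (τ θ : ℝ), (∀ n, 0 < v n) → 0 ≤ τ →
      (∀ t : ℝ, τ < t → Summable (fun n : ℕ => (v n) ^ (-t))) → H + τ + θ ≤ 1 →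
      ∀ᵐ x : ℝ, 0 < x → ∀ n : ℤ, Divergent n → ∃ k₀ : ℕ, ∀ k : ℕ, k₀ ≤ k → ∀ t ∈ traj n,
        (v k) ^ θ < |(|(t : ℝ)|) - v k * x|) ∧
    (∀ (v : ℕ → ℝ) (τ : ℝ), (∀ n, 0 < v n) → (∀ t : ℝ, τ < t → Summable (fun n : ℕ => (v n) ^ (-t))) →
      Starshaped 0 (fun n x => v n * x) ∧ ExpLe 0 (fun n x => v n * x) τ) ∧
    (∀ v : ℕ → ℝ, (∀ n, 1 ≤ v n) → (∀ t : ℝ, 0 < t → Summable fun n : ℕ => Real.exp (-(t * v n))) →
      Starshaped 1 (fun n x => x ^ (v n)) ∧ ExpLe 1 (fun n x => x ^ (v n)) 0) ∧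
    (∀ (a : ℝ) (g : ℝ → ℝ), 0 ≤ a → (∀ x y : ℝ, a < x → x ≤ y → g x / x ≤ g y / y) → (∀ x : ℝ, a < x → x < g x) →
      Starshaped a (fun n x => g^[n] x) ∧ ExpLe a (fun n x => g^[n] x) 0) := by
  obtain ⟨η, C, hη0, hη, hC0, hC⟩ := count
  have hH0 : 0 < H := lt_of_le_of_lt hη0 hη
  refine ⟨Pool.Agent.H319R2.beta_lt, ⟨η, hη0, hη, fun f a τ θ hf hτ hE hθ => windows hη0 hC0 hC hf hτ hE hθ⟩, ?_, ?_,
    Pool.Agent.R482.ST.ex_mul, Pool.Agent.R482.ST.ex_pow, Pool.Agent.R482.ST.ex_orbit⟩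
  · obtain ⟨h1, h2⟩ := Pool.Agent.R482.ST.ex_pow (fun n : ℕ => (n : ℝ) + 1) (fun n => by
      have : (0 : ℝ) ≤ n := Nat.cast_nonneg n
      linarith) (fun t ht => by
      have h3 : Summable fun n : ℕ => Real.exp (-t) ^ n :=
        summable_geometric_of_lt_one (Real.exp_pos _).le (by rw [Real.exp_lt_one_iff]; linarith)
      refine (h3.mul_left (Real.exp (-t))).congr fun n => ?_
      rw [← Real.exp_nat_mul, ← Real.exp_add]
      congr 1
      ring)
    obtain ⟨E, hE1, hE2⟩ := windows hη0 hC0 hC (θ := 1 - H) h1 le_rfl h2 (by linarith)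
    have hE0 : volume E = 0 := vol_zero hE1 (by
      rw [div_lt_one (by linarith)]
      linarith)
    filter_upwards [measure_eq_zero_iff_ae_notMem.1 hE0] with x hxE hx n hn
    obtain ⟨k₀, hk⟩ := hE2 x hx hxE n hn 1
    refine ⟨k₀ + 1, fun k hk1 t ht => ?_⟩
    have h3 := hk (k - 1) (by omega) t ht
    have h4 : ((k - 1 : ℕ) : ℝ) + 1 = k := by
      rw [Nat.cast_sub (by omega)]
      push_cast
      ring
    simp only [h4] at h3
    rw [one_mul, ← Real.rpow_mul (by linarith : (0 : ℝ) ≤ x), Real.rpow_natCast, mul_comm (k : ℝ)] at h3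
    exact h3
  · intro v τ θ hv hτ hs hle
    obtain ⟨h1, h2⟩ := Pool.Agent.R482.ST.ex_mul v τ hv hs
    obtain ⟨E, hE1, hE2⟩ := windows hη0 hC0 hC (θ := θ) h1 hτ h2 (by linarith)
    have hE0 : volume E = 0 := vol_zero hE1 (by
      rw [div_lt_one (by linarith)]
      linarith)
    filter_upwards [measure_eq_zero_iff_ae_notMem.1 hE0] with x hxE hx n hn
    obtain ⟨k₀, hk⟩ := hE2 x hx hxE n hn (x ^ (-θ))
    refine ⟨k₀, fun k hk1 t ht => ?_⟩
    have h3 := hk k hk1 t ht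
    rwa [Real.mul_rpow (hv k).le hx.le, mul_left_comm, ← Real.rpow_add hx, neg_add_cancel, Real.rpow_zero,
      mul_one] at h3

end Pool.Agent.Results.MP_ff4775_nt.StarshapedSequences
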