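import Pool.Agent.N760.IT.E
import Pool.Agent.N733.TG.K
import Pool.Agent.Results.MP_ff4775_nt.CountBelowEntropy

/-!
# Divergent trajectories of the 3x+1 map and the members of almost all orbits of Euler's function

Let `φ_k` be the `k`-th iterate of Euler's function, `φ_0(m) = m`. Let `f` be a positive multiplicative function of at most
polynomial growth such that `f p ≤ M p` for the large primes `p`, with different values at different large primes; for example
the identity, Euler's function or the sum of the divisors. Let `α > 0`, `d ≥ 1`, `κ ≥ 0` and `d H + κ ≤ 1`, where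
`H = 0.94995...` is the binary entropy of `log 2 / log 3`. For every divergent trajectory of the 3x+1 map on the integers, for
all `m ≤ N` but `ε N`, for all `k ≤ K`, with `v = f(φ_k(m))`, no element of the trajectory has an absolute value within `v^κ`
of `α v^d`, if `N ≥ N₀(K, ε)`; here `N₀` does not depend on the trajectory.

More generally `G v` takes the place of `α v^d`, where `G` is any function with steps bounded below by a positive constant and
growth at most `v^d`. The iterates of Euler's function are not multiplicative, their values form a thin set and are taken with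
very large multiplicities, and so this does not follow from the count of the elements of the trajectory.
-/

set_option autoImplicit false

namespace Pool.Agent.Results.MP_ff4775_nt.TotientOrbits

open Filter
open Pool.Agent.N733.TG (LM Expanding lm_totient lm_sigma expanding_pow)
open Pool.Agent.N760.IT (orb lm_id)

/-- The 3x+1 map on the integers. -/
def T (x : ℤ) : ℤ := if x % 2 = 0 then x / 2 else (3 * x + 1) / 2

/-- The trajectory of `n` is divergent. -/
def Divergent (n : ℤ) : Prop := Tendsto (fun k => |T^[k] n|) atTop atTop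

/-- the entropy `0.94995...` of `log 2 / log 3` -/
noncomputable def entropy : ℝ := Real.binEntropy (Real.log 2 / Real.log 3) / Real.log 2

/-- the trajectory of `n` -/
def traj (n : ℤ) : Set ℤ := {z | ∃ k : ℕ, T^[k] n = z}

lemma entropy_lt_one : entropy < 1 := by
  have h2 : (0 : ℝ) < Real.log 2 := Real.log_pos (by norm_num)
  have h3 : (0 : ℝ) < Real.log 3 := Real.log_pos (by norm_num)
  unfold entropy
  rw [div_lt_one h2]
  refine Real.binEntropy_lt_log_two.2 ?_
  intro h
  have h4 : Real.log 3 = 2 * Real.log 2 := by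
    field_simp at h
    linarith
  have h5 : 2 * Real.log 2 = Real.log 4 := by
    rw [show (4 : ℝ) = 2 ^ 2 by norm_num, Real.log_pow]
    push_cast; ring
  rw [h5] at h4
  have h6 := Real.log_injOn_pos (by norm_num : (3 : ℝ) ∈ Set.Ioi 0) (by norm_num : (4 : ℝ) ∈ Set.Ioi 0) h4
  norm_num at h6

/-- the number of the elements of a divergent trajectory up to `X` -/
lemma count : ∃ η C : ℝ, 0 ≤ η ∧ η < entropy ∧ 0 ≤ C ∧ ∀ n : ℤ, Divergent n → ∀ X : ℝ, 1 ≤ X →
    {t | t ∈ traj n ∧ |(t : ℝ)| ≤ X}.Finite ∧ ({t | t ∈ traj n ∧ |(t : ℝ)| ≤ X}.ncard : ℝ) ≤ C * X ^ η := by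
  obtain ⟨η, C, hη, h⟩ := CountBelowEntropy.result
  have hpos : 0 < entropy := by
    have h2 : (0 : ℝ) < Real.log 2 := Real.log_pos (by norm_num)
    have h3 : Real.log 2 < Real.log 3 := Real.log_lt_log (by norm_num) (by norm_num)
    exact div_pos (Real.binEntropy_pos (by positivity) ((div_lt_one (h2.trans h3)).2 h3)) h2
  refine ⟨max η 0, |C|, le_max_right _ _, max_lt hη hpos, abs_nonneg C, fun n hn X hX => ?_⟩
  have h1 := h n hn 0 X hX
  have h2 : {z : ℤ | (∃ k : ℕ, CountBelowEntropy.T^[k] n = z) ∧ |(z : ℝ) - 0| ≤ X} =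
      {t | t ∈ traj n ∧ |(t : ℝ)| ≤ X} := by
    ext z
    simp only [sub_zero, Set.mem_ofPred_eq]
    rfl
  rw [h2] at h1
  have hfin : {t | t ∈ traj n ∧ |(t : ℝ)| ≤ X}.Finite := by
    apply (Set.finite_Icc (-⌊X⌋) ⌊X⌋).subset
    intro x hx
    have h := abs_le.1 hx.2
    rw [Set.mem_Icc]
    refine ⟨?_, Int.le_floor.2 h.2⟩
    have : (-x : ℤ) ≤ ⌊X⌋ := Int.le_floor.2 (by push_cast; linarith [h.1])
    omega
  refine ⟨hfin, h1.trans ?_⟩
  calc C * X ^ η ≤ |C| * X ^ η := mul_le_mul_of_nonneg_right (le_abs_self C) (by positivity)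
    _ ≤ |C| * X ^ max η 0 :=
        mul_le_mul_of_nonneg_left (Real.rpow_le_rpow_of_exponent_le hX (le_max_left _ _)) (abs_nonneg C)

/-- **Divergent trajectories and the members of almost all orbits of Euler's function.** Let `f` be multiplicative and
positive, of at most polynomial growth, with `f p ≤ M p` at the large primes, and injective there. Let `G` have steps
`≥ const > 0` and growth at most `v^d`. Let `κ ≥ 0` and `d H + κ ≤ 1`, `H < 1` the entropy of `log 2 / log 3`. Let `K` be a
natural number and `ε > 0`. There is `N₀` such that for all integers `n` with a divergent trajectory and all `N ≥ N₀`, for all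
`m ≤ N` but `ε N`, for all `k ≤ K`, with `v = f(φ_k(m))` (`orb f k m`), no element `t` of the trajectory of `n` satisfies
`||t| - G v| ≤ v^κ`. The identity, Euler's function and the sum of the divisors are examples of such functions `f`, and
`α v^d` with `α > 0`, `d ≥ 1` is an example of `G`. -/
theorem result :
    (∀ f : ℕ → ℕ, LM f → ∀ (G : ℕ → ℝ) (d : ℝ), Expanding G d → ∀ κ : ℝ, 0 ≤ κ → entropy * d + κ ≤ 1 →
      ∀ (K : ℕ) (ε : ℝ), 0 < ε → ∃ N₀ : ℕ, ∀ n : ℤ, Divergent n → ∀ N : ℕ, N₀ ≤ N →
        ({m : ℕ | 1 ≤ m ∧ m ≤ N ∧ ∃ k ≤ K, ∃ t ∈ traj n,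
          |(|(t : ℝ)|) - G (orb f k m)| ≤ (orb f k m : ℝ) ^ κ}.ncard : ℝ) ≤ ε * N) ∧
    entropy < 1 ∧
    (LM (fun m => m) ∧ LM Nat.totient ∧ LM (fun m => ∑ d ∈ m.divisors, d)) ∧
    ∀ α d : ℝ, 0 < α → 1 ≤ d → Expanding (fun v => α * (v : ℝ) ^ d) d := by
  refine ⟨fun f hf G d hG κ hκ h1 K ε hε => ?_, entropy_lt_one, ⟨lm_id, lm_totient, lm_sigma⟩,
    fun α d hα hd => expanding_pow hα hd⟩
  obtain ⟨η, C, hη0, hη, hC0, hC⟩ := count
  have hd := hG.one_le
  obtain ⟨N₀, h⟩ := Pool.Agent.N760.IT.orbit_unif (T := ℤ) hf hG (s := η) (κ := κ) hη0 hκ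
    (by nlinarith) C K ε hε
  exact ⟨N₀, fun n hn N hN => h (traj n) (fun t => |(t : ℝ)|) (fun X hX => hC n hn X hX) N hN⟩

end Pool.Agent.Results.MP_ff4775_nt.TotientOrbits
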